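import Mathlib
import Pool.Agent.Lib.MP_b66a5a_lc.Defs
import Pool.Agent.Lib.MP_b66a5a_lc.Final

set_option autoImplicit false

namespace Pool.Agent.Results.MP_b66a5a_lc.NotElementary

open Pool.Agent.Lib.MP_b66a5a_lc

/-- There is no Kalmar elementary function that bounds the constants `r(m)` and `p(m)` of the
modular recurrences of the counting sequences of CMSOL sentences in terms of `max {|φ|, m}`. -/
theorem result : ¬ ∃ f : ℕ → ℕ, Elementary f ∧
    ∀ (τ : Voc) (φ : Sentence τ) (m : ℕ), 0 < m →
      ∃ r p : ℕ, 0 < r ∧ 0 < p ∧ r ≤ f (max φ.length m) ∧ p ≤ f (max φ.length m) ∧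
        RecurrenceMod (countSeq φ) m r p :=
  main

end Pool.Agent.Results.MP_b66a5a_lc.NotElementary
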